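import Pool.Agent.helper34.DT.Spec

/-!
# Project DT, module BX: the exponential of a derivation killing `ξ` fixes `ξ`
-/

set_option autoImplicit false

namespace Pool.Agent.HC.DT

open Pool.Agent.HC

noncomputable section

/-- forms on a finite dimensional space are continuous -/
theorem BX_cont {V : Type} [NormedAddCommGroup V] [NormedSpace ℝ V] [FiniteDimensional ℝ V]
    {n : ℕ} (η : V [⋀^Fin n]→ₗ[ℝ] ℝ) : Continuous (fun v : Fin n → V => η v) := by
  classical
  set b := Module.finBasis ℝ V with hb
  have h : ∀ v : Fin n → V, η v = ∑ r : Fin n → Fin (Module.finrank ℝ V),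
      (∏ j, b.repr (v j) (r j)) * η (fun j => b (r j)) := by
    intro v
    have h1 : v = fun j => ∑ i, b.repr (v j) i • b i := by
      funext j
      exact (b.sum_repr (v j)).symm
    have h2 : η (fun j => ∑ i, b.repr (v j) i • b i) =
        ∑ r : Fin n → Fin (Module.finrank ℝ V), η (fun j => b.repr (v j) (r j) • b (r j)) :=
      η.toMultilinearMap.map_sum (fun j i => b.repr (v j) i • b i)
    conv_lhs => rw [h1]
    rw [h2]
    refine Finset.sum_congr rfl fun r _ => ?_
    have h3 := η.toMultilinearMap.map_smul_univ (fun j => b.repr (v j) (r j)) (fun j => b (r j))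
    exact h3
  have h5 : (fun v : Fin n → V => η v) = fun v => ∑ r : Fin n → Fin (Module.finrank ℝ V),
      (∏ j, b.repr (v j) (r j)) * η (fun j => b (r j)) := funext h
  rw [h5]
  refine continuous_finset_sum _ fun r _ => ?_
  refine Continuous.mul ?_ continuous_const
  refine continuous_finset_prod _ fun j _ => ?_
  have h4 : Continuous (b.coord (r j)) := LinearMap.continuous_of_finiteDimensional _
  exact h4.comp (continuous_apply j)

/-- derivative of a form along a curve -/
theorem BX_deriv {V : Type} [NormedAddCommGroup V] [NormedSpace ℝ V] [FiniteDimensional ℝ V]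
    {n : ℕ} (η : V [⋀^Fin n]→ₗ[ℝ] ℝ) (f : ℝ → Fin n → V) (f' : Fin n → V) (t : ℝ)
    (hf : ∀ j, HasDerivAt (fun s => f s j) (f' j) t) :
    HasDerivAt (fun s => η (f s)) (∑ j, η (Function.update (f t) j (f' j))) t := by
  classical
  set M : ContinuousMultilinearMap ℝ (fun _ : Fin n => V) ℝ :=
    { toMultilinearMap := η.toMultilinearMap
      cont := BX_cont η } with hM
  have h1 : HasDerivAt f f' t := hasDerivAt_pi.2 hf
  have h2 := (M.hasFDerivAt (f t)).comp_hasDerivAt t h1
  rw [ContinuousMultilinearMap.linearDeriv_apply] at h2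
  exact h2

theorem BX (hAE : AE_stmt) : BX_stmt := by
  intro W _ _ _ X k n ξ hξ η
  have : FiniteDimensional ℝ W := FiniteDimensional.complexToReal W
  have : CompleteSpace W := FiniteDimensional.complete ℂ W
  have : CompleteSpace (W →L[ℝ] W) := inferInstance
  obtain ⟨m, r, v, -, hv⟩ := hAE (Fin k → W) Set.univ Submodule.span_univ n ξ
  -- the curve
  set T : ℝ → (W →L[ℝ] W) := fun t => NormedSpace.exp (t • X) with hT
  have hd : ∀ t : ℝ, HasDerivAt T (T t * X) t := fun t => hasDerivAt_exp_smul_const X t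
  set F : ℝ → ℝ := fun t => ξ (η.compLinearMap (powMap k ((T t : W →L[ℝ] W) : W →ₗ[ℝ] W))) with hF
  have hF' : ∀ t, HasDerivAt F 0 t := by
    intro t
    have e1 : F = fun t => ∑ i, r i * η (fun j => powMap k ((T t : W →L[ℝ] W) : W →ₗ[ℝ] W) (v i j)) := by
      funext t
      simp only [hF]
      rw [hv]
      rfl
    have e2 : ∀ w : Fin k → W, HasDerivAt
        (fun s => powMap k ((T s : W →L[ℝ] W) : W →ₗ[ℝ] W) w)
        (powMap k ((T t : W →L[ℝ] W) : W →ₗ[ℝ] W) (powMap k (X : W →ₗ[ℝ] W) w)) t := by
      intro w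
      rw [hasDerivAt_pi]
      intro a
      have h1 := (ContinuousLinearMap.apply ℝ W (w a)).hasFDerivAt.comp_hasDerivAt t (hd t)
      exact h1
    have e3 : HasDerivAt F (∑ i, r i * ∑ j, η (Function.update
        (fun j => powMap k ((T t : W →L[ℝ] W) : W →ₗ[ℝ] W) (v i j)) j
        (powMap k ((T t : W →L[ℝ] W) : W →ₗ[ℝ] W) (powMap k (X : W →ₗ[ℝ] W) (v i j))))) t := by
      rw [e1]
      refine HasDerivAt.fun_sum fun i _ => ?_
      refine HasDerivAt.const_mul (r i) ?_
      exact BX_deriv η (fun s j => powMap k ((T s : W →L[ℝ] W) : W →ₗ[ℝ] W) (v i j)) _ t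
        fun j => e2 (v i j)
    have e4 := hξ (η.compLinearMap (powMap k ((T t : W →L[ℝ] W) : W →ₗ[ℝ] W)))
    rw [hv] at e4
    have e5 : (∑ i, r i * ∑ j, η (Function.update
        (fun j => powMap k ((T t : W →L[ℝ] W) : W →ₗ[ℝ] W) (v i j)) j
        (powMap k ((T t : W →L[ℝ] W) : W →ₗ[ℝ] W) (powMap k (X : W →ₗ[ℝ] W) (v i j))))) = 0 := by
      rw [← e4]
      refine Finset.sum_congr rfl fun i _ => ?_
      rw [der_apply]
      congr 1
      refine Finset.sum_congr rfl fun j _ => ?_
      rw [AlternatingMap.compLinearMap_apply]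
      congr 1
      funext j'
      by_cases hj : j' = j
      · subst hj
        rw [Function.update_self, Function.update_self]
      · rw [Function.update_of_ne hj, Function.update_of_ne hj]
    rw [e5] at e3
    exact e3
  have hconst : F 1 = F 0 := is_const_of_deriv_eq_zero (fun t => (hF' t).differentiableAt)
    (fun t => (hF' t).deriv) 1 0
  have h1 : F 1 = ξ (η.compLinearMap (powMap k ((NormedSpace.exp X : W →L[ℝ] W) : W →ₗ[ℝ] W))) := by
    simp only [hF, hT, one_smul]
  have h0 : F 0 = ξ η := by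
    simp only [hF, hT, zero_smul, NormedSpace.exp_zero]
    congr 1
  rw [← h1, hconst, h0]

end

end Pool.Agent.HC.DT
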